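import Pool.Agent.H32.S36.Targets

set_option autoImplicit false

open Complex Polynomial

namespace Pool.Agent.H73.S36

open Pool.Agent.H32.S36 ModularForm UpperHalfPlane

theorem eta_add_one (z : ℂ) : ModularForm.eta (z + 1) =
    Complex.exp (2 * Real.pi * Complex.I / 24) * ModularForm.eta z := by
  unfold ModularForm.eta
  have h1 : ∀ n : ℕ, ModularForm.eta_q n (z + 1) = ModularForm.eta_q n z := by
    intro n
    rw [ModularForm.eta_q_eq_cexp, ModularForm.eta_q_eq_cexp]
    have : 2 * (Real.pi : ℂ) * Complex.I * ((n : ℂ) + 1) * (z + 1) =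
        2 * (Real.pi : ℂ) * Complex.I * ((n : ℂ) + 1) * z +
          ((n + 1 : ℕ) : ℤ) * (2 * Real.pi * Complex.I) := by
      push_cast
      ring
    rw [this, Complex.exp_add, Complex.exp_int_mul_two_pi_mul_I, mul_one]
  simp only [h1]
  rw [← mul_assoc]
  congr 1
  unfold Function.Periodic.qParam
  rw [← Complex.exp_add]
  congr 1
  push_cast
  ring

end Pool.Agent.H73.S36

namespace Pool.Agent.H32.S36

open Pool.Agent.H73.S36 ModularForm UpperHalfPlane

theorem m_ETA : T_ETA := by
  intro z hz
  have hz' : z ∈ upperHalfPlaneSet := hz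
  have hz0 : z ≠ 0 := by
    rintro rfl
    simp at hz
  refine ⟨?_, ?_, pow_ne_zero 2 (ModularForm.eta_ne_zero hz'),
    (ModularForm.differentiableAt_eta_of_mem_upperHalfPlaneSet hz').pow 2⟩
  · unfold gg
    rw [eta_add_one, mul_pow, ← Complex.exp_nat_mul]
    congr 2
    push_cast
    ring
  · unfold gg
    have h := ModularForm.eta_comp_eq_csqrt_I_inv hz'
    simp only [Function.comp_apply, Pi.smul_apply, Pi.mul_apply, smul_eq_mul] at h
    rw [h, mul_pow, mul_pow, inv_pow]
    have hs : ∀ w : ℂ, w ≠ 0 → Complex.sqrt w ^ 2 = w := by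
      intro w hw
      rw [sqrt_eq_exp hw, ← Complex.exp_nat_mul]
      rw [show ((2 : ℕ) : ℂ) * (Complex.log w / 2) = Complex.log w by push_cast; ring,
        Complex.exp_log hw]
    rw [hs z hz0, hs Complex.I Complex.I_ne_zero, Complex.inv_I]
    ring

end Pool.Agent.H32.S36
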