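import Pool.Agent.H32.S36.Targets

set_option autoImplicit false

open Complex Polynomial

namespace Pool.Agent.H73.S36

open Pool.Agent.H32.S36

end Pool.Agent.H73.S36

namespace Pool.Agent.H32.S36

open Pool.Agent.H73.S36

theorem m_HKL (h1 : T_HLV) (h2 : T_HLT) : T_HKL := by
  intro h hz hh p hp i
  have hp0 : (p : ℂ) ≠ 0 := by exact_mod_cast hp.out.ne_zero
  cases i with
  | none =>
    refine (h1 h (zc hz) (p ^ 2) (pow_pos hp.out.pos 2) hh).congr fun τ _ => ?_
    change h (((p ^ 2 : ℕ) : ℂ) * τ) = h (p * (p * τ))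
    congr 1
    push_cast
    ring
  | some j =>
    have h3 := (h2 h (zc hz) ((j.val : ℝ) / p) hh).smul ((p : ℂ) ^ 2)
    have hc : (((j.val : ℝ) / p : ℝ) : ℂ) = (j.val : ℂ) / p := by push_cast; rfl
    rw [hc] at h3
    refine h3.congr fun τ _ => ?_
    change (p : ℂ) ^ 2 * h (τ + (j.val : ℂ) / p) = (p : ℂ) ^ 2 * h ((p * τ + (j.val : ℂ)) / p)
    congr 2
    field_simp

end Pool.Agent.H32.S36
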