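import Pool.Agent.H32.S36.Targets

set_option autoImplicit false

open Complex Polynomial

namespace Pool.Agent.H73.S36

open Pool.Agent.H32.S36

theorem tau_ne {τ : ℂ} (hτ : 0 < τ.im) : (10 * τ ^ 2 : ℂ) ≠ 0 ∧ (5 * (2 * τ - 1) ^ 2 : ℂ) ≠ 0 := by
  have h1 : τ ≠ 0 := by
    rintro rfl
    simp at hτ
  have h2 : (2 * τ - 1 : ℂ) ≠ 0 := by
    intro h
    have := congrArg Complex.im h
    simp at this
    linarith
  exact ⟨mul_ne_zero (by norm_num) (pow_ne_zero 2 h1),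
    mul_ne_zero (by norm_num) (pow_ne_zero 2 h2)⟩

theorem mf_mul {m n : ℤ} {F G : ℂ → ℂ} (hF : MF 1 m F) (hG : MF 1 n G) :
    MF 1 (m + n) (fun τ => F τ * G τ) := by
  refine ⟨fun τ hτ => (hF.hol τ hτ).mul (hG.hol τ hτ), fun τ hτ => ?_, fun τ hτ => ?_,
    fun τ hτ => ?_⟩
  · simp only [hF.per τ hτ, hG.per τ hτ]
  · simp only [hF.w10 τ hτ, hG.w10 τ hτ]
    rw [zpow_add₀ (tau_ne hτ).1]
    ring
  · simp only [hF.w5 τ hτ, hG.w5 τ hτ]
    rw [zpow_add₀ (tau_ne hτ).2]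
    ring

theorem mf_add {F G : ℂ → ℂ} (hF : MF 1 0 F) (hG : MF 1 0 G) :
    MF 1 0 (fun τ => F τ + G τ) := by
  refine ⟨fun τ hτ => (hF.hol τ hτ).add (hG.hol τ hτ), fun τ hτ => ?_, fun τ hτ => ?_,
    fun τ hτ => ?_⟩
  · simp only [hF.per τ hτ, hG.per τ hτ]
  · simp only [hF.w10 τ hτ, hG.w10 τ hτ]
    ring
  · simp only [hF.w5 τ hτ, hG.w5 τ hτ]
    ring

theorem mf_const (c : ℂ) : MF 1 0 (fun _ => c) := by
  refine ⟨fun τ _ => differentiableAt_const c, fun τ _ => rfl, fun τ _ => ?_, fun τ _ => ?_⟩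
  · simp
  · simp

theorem hl_qq : HL qq (HahnSeries.single 1 1) := by
  intro τ _
  have h : ∀ n : ℤ, n ≠ 1 → (HahnSeries.single (1 : ℤ) (1 : ℂ)).coeff n * qq τ ^ n = 0 := by
    intro n hn
    rw [HahnSeries.coeff_single_of_ne hn, zero_mul]
  have h2 := hasSum_single
    (f := fun n : ℤ => (HahnSeries.single (1 : ℤ) (1 : ℂ)).coeff n * qq τ ^ n) 1 h
  simpa using h2

theorem zc_single (n : ℤ) : zc (HahnSeries.single n 1) = HahnSeries.single n (1 : ℂ) := by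
  ext k
  rw [zc_coeff]
  by_cases h : k = n
  · subst h; simp
  · rw [HahnSeries.coeff_single_of_ne h, HahnSeries.coeff_single_of_ne h]
    simp

theorem single_sq : (HahnSeries.single (2 : ℤ) (1 : ℂ)) =
    HahnSeries.single (1 : ℤ) (1 : ℂ) * HahnSeries.single (1 : ℤ) (1 : ℂ) := by
  rw [HahnSeries.single_mul_single]
  norm_num

theorem z3 : zc 3 = HahnSeries.C (3 : ℂ) := by
  change zcHom 3 = _
  rw [map_ofNat, map_ofNat]
theorem z9 : zc 9 = HahnSeries.C (9 : ℂ) := by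
  change zcHom 9 = _
  rw [map_ofNat, map_ofNat]
theorem z27 : zc 27 = HahnSeries.C (27 : ℂ) := by
  change zcHom 27 = _
  rw [map_ofNat, map_ofNat]
theorem z36 : zc 36 = HahnSeries.C (36 : ℂ) := by
  change zcHom 36 = _
  rw [map_ofNat, map_ofNat]
theorem z243 : zc 243 = HahnSeries.C (243 : ℂ) := by
  change zcHom 243 = _
  rw [map_ofNat, map_ofNat]
theorem z729 : zc 729 = HahnSeries.C (729 : ℂ) := by
  change zcHom 729 = _
  rw [map_ofNat, map_ofNat]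
theorem z1 : zc 1 = HahnSeries.C (1 : ℂ) := by
  rw [zc_one, map_one]

end Pool.Agent.H73.S36

namespace Pool.Agent.H32.S36

open Pool.Agent.H73.S36

theorem m_P3 (h1 : T_P3N) (h2 : T_P3C) (h3 : T_HKM) (h4 : T_LIO) (h5 : T_HLM) (h6 : T_HLV) :
    T_P3 := by
  intro x h D xz hz dz hp τ hτ
  have : Fact (Nat.Prime 3) := ⟨by norm_num⟩
  have hM := (h3 h hp.mh 3 (by norm_num) (by norm_num)).2 3
  have hM0 : MF 1 0 (fun τ => (∏ i : Option (ZMod 3), (3 * h τ - hk 3 h i τ)) * D τ) := by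
    have := mf_mul hM hp.md
    exact this
  have hx36 : MF 1 0 (fun τ => x τ + (-36)) := mf_add hp.mx (mf_const _)
  have hx9 : MF 1 0 (fun τ => x τ + 9) := mf_add hp.mx (mf_const _)
  have hx1 : MF 1 0 (fun τ => x τ + (-1)) := mf_add hp.mx (mf_const _)
  have hP : MF 1 0 (fun τ => 27 * (((x τ + (-36)) * (x τ + 9)) * (x τ + (-1)))) :=
    mf_mul (mf_const 27) (mf_mul (mf_mul hx36 hx9) hx1)
  have hF := mf_add hM0 hP
  obtain ⟨G0, G1, G2, g0, g1, g2, hprod⟩ := h1 h hz hp.lh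
  have hh3 : HL (fun τ => h (3 * τ)) (VV 3 (by norm_num) (zc hz)) := by
    have := h6 h (zc hz) 3 (by norm_num) hp.lh
    exact this
  -- expansion of the product
  have a1 := (hp.lh.smul 3).sub hh3
  have a2 := (hp.lh.smul 3).sub (g0.smul 9)
  have a23 := h5 _ _ _ _ (h5 _ _ _ _ a2 a2) a2
  have b1 := h5 _ _ _ _ (h5 _ _ _ _ g1 g1) g1
  have b2 := h5 _ _ _ _ (h5 _ _ _ _ g2 g2) g2
  have c1 := h5 _ _ _ _ hl_qq b1
  have c2 := h5 _ _ _ _ (h5 _ _ _ _ hl_qq hl_qq) b2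
  have c3 := (c1.add c2).smul 729
  have c4 := h5 _ _ _ _ (h5 _ _ _ _ (h5 _ _ _ _ (hl_qq.smul 243) a2) g1) g2
  have c5 := (a23.sub c3).sub c4
  have c6 := h5 _ _ _ _ (h5 _ _ _ _ a1 c5) hp.ld
  have d1 := h5 _ _ _ _ (h5 _ _ _ _ (hp.lx.sub (HL.const 36)) (hp.lx.add (HL.const 9)))
    (hp.lx.sub (HL.const 1))
  have c7 := c6.add (d1.smul 27)
  have key := h2 xz hz dz hp.xlow hp.xm1 hp.x0 hp.x1 hp.x2 hp.hlow hp.hm1 hp.h0 hp.h1 hp.h2 hp.h3
    hp.h4 hp.h5 hp.h6 hp.dlow hp.d3 hp.d4 hp.d5 hp.d6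
  obtain ⟨S, hS⟩ : ∃ S : LaurentSeries ℤ, S =
      ((3 * hz - VV 3 (by norm_num) hz) * ((3 * hz - 9 * sec3 0 hz) ^ 3
        - 729 * (HahnSeries.single 1 1 * sec3 1 hz ^ 3 + HahnSeries.single 2 1 * sec3 2 hz ^ 3)
        - 243 * HahnSeries.single 1 1 * (3 * hz - 9 * sec3 0 hz) * sec3 1 hz * sec3 2 hz) * dz
      + 27 * ((xz - 36) * (xz + 9) * (xz - 1))) := ⟨_, rfl⟩
  rw [← hS] at key
  have hFS : HL (fun τ => (∏ i : Option (ZMod 3), (3 * h τ - hk 3 h i τ)) * D τ +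
      27 * (((x τ + (-36)) * (x τ + 9)) * (x τ + (-1)))) (zc S) := by
    have hzS : zc S = (HahnSeries.C 3 * zc hz - VV 3 (by norm_num) (zc hz)) *
        ((HahnSeries.C 3 * zc hz - HahnSeries.C 9 * zc (sec3 0 hz)) *
            (HahnSeries.C 3 * zc hz - HahnSeries.C 9 * zc (sec3 0 hz)) *
            (HahnSeries.C 3 * zc hz - HahnSeries.C 9 * zc (sec3 0 hz)) -
          HahnSeries.C 729 *
            (HahnSeries.single 1 1 * (zc (sec3 1 hz) * zc (sec3 1 hz) * zc (sec3 1 hz)) +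
              HahnSeries.single 1 1 * HahnSeries.single 1 1 *
                (zc (sec3 2 hz) * zc (sec3 2 hz) * zc (sec3 2 hz))) -
          HahnSeries.C 243 * HahnSeries.single 1 1 *
            (HahnSeries.C 3 * zc hz - HahnSeries.C 9 * zc (sec3 0 hz)) * zc (sec3 1 hz) *
              zc (sec3 2 hz)) * zc dz +
        HahnSeries.C 27 * ((zc xz - HahnSeries.C 36) * (zc xz + HahnSeries.C 9) *
          (zc xz - HahnSeries.C 1)) := by
      rw [hS]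
      simp only [zc_add, zc_mul, zc_sub, zc_pow, zc_VV, z3, z9, z27, z36, z243, z729, z1,
        zc_single, single_sq]
      ring
    rw [hzS]
    refine c7.congr fun σ hσ => ?_
    have hk3 := hprod σ hσ
    rw [hk3]
    ring
  have hzero := h4 _ _ hF hFS (fun n hn => by
    rw [zc_coeff, key n hn, Int.cast_zero]) τ hτ
  linear_combination hzero

end Pool.Agent.H32.S36
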