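import Pool.Agent.H32.S36.Targets

set_option autoImplicit false

open Complex Polynomial

namespace Pool.Agent.H73.S36

open Pool.Agent.H32.S36

theorem zc_16 : zc 16 = HahnSeries.C (16 : ℂ) := by
  change zcHom 16 = _
  rw [map_ofNat, map_ofNat]

theorem zc_4 : zc 4 = HahnSeries.C (4 : ℂ) := by
  change zcHom 4 = _
  rw [map_ofNat, map_ofNat]

theorem zc_2 : zc 2 = HahnSeries.C (2 : ℂ) := by
  change zcHom 2 = _
  rw [map_ofNat, map_ofNat]

end Pool.Agent.H73.S36

namespace Pool.Agent.H32.S36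

open Pool.Agent.H73.S36

theorem m_PFK (h1 : T_HLU) (h2 : T_HLM) (h3 : T_HLD) : T_PFK := by
  intro x h D xz hz dz hp
  have hx := hp.lx
  have hh := hp.lh
  have hdx : HL (DD x) (th (zc xz)) := (h3 _ _ hx).2
  have hdh : HL (DD h) (th (zc hz)) := (h3 _ _ hh).2
  have hddh : HL (DD (DD h)) (th (th (zc hz))) := (h3 _ _ hdh).2
  refine ⟨hp.xlow, hp.xm1, hp.hlow, hp.hm1, zc_injective ?_, zc_injective ?_⟩
  · have hA := h2 _ _ _ _ (h2 _ _ _ _ hh hdx) (h2 _ _ _ _ hh hdx)
    have hB := h2 _ _ _ _ (h2 _ _ _ _ hx hx)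
      (h2 _ _ _ _ (hx.sub (HL.const 16)) (hx.add (HL.const 4)))
    have hE := h1 _ _ _ (hA.congr (G := fun τ => x τ * x τ * ((x τ - 16) * (x τ + 4)))
      fun τ hτ => by
        have := hp.e1 τ hτ
        rw [pow_two, pow_two] at this
        exact this) hB
    rw [pow_two, pow_two]
    simp only [zc_mul, zc_sub, zc_add, zc_th, zc_16, zc_4]
    exact hE
  · have hA := (h2 _ _ _ _ ((hh.smul 2)) hddh).sub (h2 _ _ _ _ hdh hdh)
    have hB := h2 _ _ _ _ (hx.sub (HL.const 2)) (hx.sub (HL.const 2))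
    have hE := h1 _ _ _ (hA.congr (G := fun τ => (x τ - 2) * (x τ - 2))
      fun τ hτ => by
        have := hp.e2 τ hτ
        rw [pow_two, pow_two] at this
        exact this) hB
    rw [pow_two, pow_two]
    simp only [zc_mul, zc_sub, zc_th, zc_2]
    exact hE

end Pool.Agent.H32.S36
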